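import Pool.Agent.W548.MQ.Stm2

set_option autoImplicit false

universe u

namespace Pool.Agent.W637.MQ

open W548.MQ

section

variable (L : Type u) [Field L]

/-- The subgroup of squares. -/
def sqs : Subgroup Lˣ := (powMonoidHom 2 : Lˣ →* Lˣ).range

/-- The group of square classes, written additively. -/
def G : Type u := Additive (Lˣ ⧸ sqs L)

instance : AddCommGroup (G L) := inferInstanceAs (AddCommGroup (Additive (Lˣ ⧸ sqs L)))

variable {L}

/-- The square class of a unit. -/
def cls (a : Lˣ) : G L := Additive.ofMul (QuotientGroup.mk a : Lˣ ⧸ sqs L)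

lemma cls_mul (a b : Lˣ) : cls (a * b) = cls a + cls b := rfl

lemma cls_eq_zero (a : Lˣ) : cls a = 0 ↔ ∃ c : Lˣ, c ^ 2 = a := by
  have h1 : cls a = 0 ↔ (QuotientGroup.mk a : Lˣ ⧸ sqs L) = 1 := Iff.rfl
  rw [h1, QuotientGroup.eq_one_iff]
  rfl

lemma cls_sq (a : Lˣ) : cls (a ^ 2) = 0 := (cls_eq_zero _).mpr ⟨a, rfl⟩

lemma cls_add_self (a : Lˣ) : cls a + cls a = 0 := by
  rw [← cls_mul, ← pow_two, cls_sq]

variable (L)

/-- The relation `2 * (1, 1) = (0, -1)`. -/
def N : AddSubgroup (ℤ × G L) := AddSubgroup.zmultiples ((2 : ℤ), cls (-1 : Lˣ))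

/-- The target of the signed discriminant. -/
abbrev Q : Type u := (ℤ × G L) ⧸ N L

variable {L}

/-- The value on one-dimensional forms. -/
def g (a : Lˣ) : Q L := QuotientAddGroup.mk ((1 : ℤ), cls a)

lemma g_add (a b : Lˣ) : g a + g b = QuotientAddGroup.mk ((2 : ℤ), cls (a * b)) := rfl

lemma mk_two : (QuotientAddGroup.mk ((2 : ℤ), cls (-1 : Lˣ)) : Q L) = 0 :=
  (QuotientAddGroup.eq_zero_iff _).mpr (AddSubgroup.mem_zmultiples _)

lemma g_sq (a b : Lˣ) : g (a * b ^ 2) = g a := by
  unfold g
  rw [cls_mul, cls_sq, add_zero]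

lemma g_neg (a : Lˣ) : g a + g (-a) = 0 := by
  have h : a * -a = -1 * a ^ 2 := by
    ext; push_cast; ring
  rw [g_add, h, cls_mul, cls_sq, add_zero, mk_two]

lemma g_rel (a b c : Lˣ) : g a + g b = g c + g (a * b * c) := by
  have h : c * (a * b * c) = a * b * c ^ 2 := by
    ext; push_cast; ring
  rw [g_add, g_add, h, cls_mul (a * b), cls_sq, add_zero]

lemma g_four (a b c d : Lˣ) : g (a * c) + g (a * d) + (g (b * c) + g (b * d)) = 0 := by
  have h1 : a * c * (a * d) = c * d * a ^ 2 := by ext; push_cast; ring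
  have h2 : b * c * (b * d) = c * d * b ^ 2 := by ext; push_cast; ring
  rw [g_add, g_add, h1, h2, cls_mul (c * d), cls_mul (c * d), cls_sq, cls_sq, add_zero]
  have h3 : (QuotientAddGroup.mk ((2 : ℤ), cls (c * d)) : Q L)
      + QuotientAddGroup.mk ((2 : ℤ), cls (c * d))
      = QuotientAddGroup.mk (((2 : ℤ), cls (-1 : Lˣ)) + ((2 : ℤ), cls (-1 : Lˣ))) := by
    rw [← QuotientAddGroup.mk_add]
    congr 1
    ext1
    · rfl
    · change cls (c * d) + cls (c * d) = cls (-1 : Lˣ) + cls (-1 : Lˣ)
      rw [cls_add_self, cls_add_self]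
  rw [h3, QuotientAddGroup.mk_add, mk_two, add_zero]

lemma form_mul (a b : Lˣ) : form a * form b = form (a * b) := by
  unfold form
  rw [← map_mul]
  congr 1
  simp [W548.MQ.e, MonoidAlgebra.single_mul_single]

lemma form_neg (a : Lˣ) : form a + form (-a) = 0 := by
  unfold form
  rw [← map_add, Ideal.Quotient.eq_zero_iff_mem]
  exact Ideal.subset_span (Rel.hyp a)

lemma neg_form (a : Lˣ) : - form a = form (-a) := by
  rw [neg_eq_iff_add_eq_zero]
  exact form_neg a

lemma rk_form (a : Lˣ) : rk L (form a) = 1 := by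
  exact rk0_e a

variable (L)

/-- Sums of two forms generate an additive group. -/
noncomputable def K : AddSubgroup (W L) := AddSubgroup.closure {x | ∃ a b : Lˣ, x = form a + form b}

variable {L}

lemma mem_K (a b : Lˣ) : form a + form b ∈ K L := AddSubgroup.subset_closure ⟨a, b, rfl⟩

lemma K_le (x : W L) (hx : x ∈ K L) : rk L x = 0 := by
  have h : K L ≤ (rk L).toAddMonoidHom.ker := by
    unfold K
    rw [AddSubgroup.closure_le]
    rintro _ ⟨a, b, rfl⟩
    change rk L (form a + form b) = 0
    rw [map_add, rk_form, rk_form]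
    decide
  exact h hx

variable (L)

/-- The forms whose rank parity is detected by `K`. -/
noncomputable def S : AddSubgroup (W L) where
  carrier := {x | x ∈ K L ∨ x - form 1 ∈ K L}
  zero_mem' := Or.inl (K L).zero_mem
  add_mem' := by
    rintro a b (ha | ha) (hb | hb)
    · exact Or.inl ((K L).add_mem ha hb)
    · right
      have : a + b - form 1 = a + (b - form 1) := by abel
      rw [this]; exact (K L).add_mem ha hb
    · right
      have : a + b - form 1 = (a - form 1) + b := by abel
      rw [this]; exact (K L).add_mem ha hb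
    · left
      have : a + b = (a - form 1) + (b - form 1) + (form 1 + form 1) := by abel
      rw [this]; exact (K L).add_mem ((K L).add_mem ha hb) (mem_K 1 1)
  neg_mem' := by
    rintro a (ha | ha)
    · exact Or.inl ((K L).neg_mem ha)
    · right
      have : -a - form 1 = -(a - form 1) - (form 1 + form 1) := by abel
      rw [this]; exact (K L).sub_mem ((K L).neg_mem ha) (mem_K 1 1)

variable {L}

lemma form_mem_S (a : Lˣ) : form a ∈ S L := by
  right
  rw [sub_eq_add_neg, neg_form]
  exact mem_K a (-1)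

lemma mem_S (x : W L) : x ∈ S L := by
  obtain ⟨y, rfl⟩ := Ideal.Quotient.mk_surjective x
  induction y using MonoidAlgebra.induction_linear with
  | zero =>
    have h : (Ideal.Quotient.mk (Ideal.span {x | Rel L x})) (0 : MonoidAlgebra ℤ Lˣ) = 0 :=
      map_zero _
    exact h ▸ (S L).zero_mem
  | add p q hp hq =>
    have h := map_add (Ideal.Quotient.mk (Ideal.span {x | Rel L x})) (p : MonoidAlgebra ℤ Lˣ) q
    exact h ▸ (S L).add_mem hp hq
  | single a n =>
    have h : (Ideal.Quotient.mk (Ideal.span {x | Rel L x}))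
        (MonoidAlgebra.single a n : MonoidAlgebra ℤ Lˣ) = n • form a := by
      unfold form
      rw [← map_zsmul]
      congr 1
      simp [W548.MQ.e]
    exact h ▸ (S L).zsmul_mem (form_mem_S a) n

lemma I_le (x : W L) (hx : x ∈ I L) : x ∈ K L := by
  have hx0 : rk L x = 0 := hx
  rcases mem_S x with h | h
  · exact h
  · exfalso
    have h1 := K_le _ h
    rw [map_sub, rk_form, hx0] at h1
    exact absurd h1 (by decide)

lemma D_prod (D : W L →+ Q L) (hD : ∀ a, D (form a) = g a) (x y : W L) (hx : x ∈ K L)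
    (hy : y ∈ K L) : D (x * y) = 0 := by
  have step : ∀ c d : Lˣ, ∀ x ∈ K L, D (x * (form c + form d)) = 0 := by
    intro c d x hx
    have h : K L ≤ (D.comp (AddMonoidHom.mulRight (form c + form d))).ker := by
      unfold K
      rw [AddSubgroup.closure_le]
      rintro _ ⟨a, b, rfl⟩
      change D ((form a + form b) * (form c + form d)) = 0
      rw [add_mul, mul_add, mul_add, form_mul, form_mul, form_mul, form_mul, map_add, map_add,
        map_add, hD, hD, hD, hD, g_four]
    exact h hx
  have h : K L ≤ (D.comp (AddMonoidHom.mulLeft x)).ker := by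
    conv_lhs => unfold K
    rw [AddSubgroup.closure_le]
    rintro _ ⟨c, d, rfl⟩
    exact step c d x hx
  exact h hy

end

/-- The signed discriminant kills the square of the fundamental ideal. -/
theorem t_DISC2 (hL : S_LIFT.{u, u}) : S_DISC2.{u} := by
  intro L _ a b hab
  obtain ⟨D, hD⟩ := hL L (Q L) g g_sq g_neg (fun a b c _ => g_rel a b c)
  have h0 : D (pf a - pf b) = 0 := by
    rw [Submodule.pow_succ, Submodule.pow_one] at hab
    refine Submodule.mul_induction_on hab ?_ ?_
    · intro x hx y hy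
      exact D_prod D hD x y (I_le x hx) (I_le y hy)
    · intro x y hx hy
      rw [map_add, hx, hy, add_zero]
  unfold pf at h0
  rw [add_sub_add_left_eq_sub, map_sub, hD, hD] at h0
  unfold g at h0
  rw [← QuotientAddGroup.mk_sub, QuotientAddGroup.eq_zero_iff] at h0
  obtain ⟨n, hn⟩ := AddSubgroup.mem_zmultiples_iff.mp h0
  have hn1 : n * 2 = 0 := by
    have := congrArg Prod.fst hn
    simpa using this
  have hn0 : n = 0 := by omega
  subst hn0
  have h2 : (0 : G L) = cls (-a) - cls (-b) := by
    have := congrArg Prod.snd hn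
    simpa using this
  have h3 : cls (-a) + cls (-b) = 0 := by
    have h4 : cls (-a) = cls (-b) := (sub_eq_zero.mp h2.symm)
    rw [h4, cls_add_self]
  rw [← cls_mul, cls_eq_zero] at h3
  obtain ⟨c, hc⟩ := h3
  refine ⟨c * b⁻¹, ?_⟩
  have h5 : c ^ 2 = a * b := by rw [hc]; simp
  have h6 : b * (c * b⁻¹) ^ 2 = c ^ 2 * b⁻¹ := by
    rw [mul_pow, pow_two b⁻¹]
    calc b * (c ^ 2 * (b⁻¹ * b⁻¹)) = c ^ 2 * b⁻¹ * (b * b⁻¹) := by ac_rfl
      _ = c ^ 2 * b⁻¹ := by simp
  rw [h6, h5]
  simp

end Pool.Agent.W637.MQ
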